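import Pool.Agent.TH467.Asm
import Pool.Agent.TH467.ScanCode
import Pool.Agent.TH467.RoundCode

set_option autoImplicit false

namespace Pool.Agent.Results.MP_131fce_co.LargeK

open Pool.Agent.TH467

/-- For every `k ≥ 10 ^ 20`, every finite triangle-free graph on `n` vertices has at most
`(n / k) ^ k` induced cycles of length `k`. -/
theorem result :
    ∀ k : ℕ, 10 ^ 20 ≤ k → ∀ (V : Type) [Fintype V] (G : SimpleGraph V), G.CliqueFree 3 →
      (({S : Finset V | S.card = k ∧
          Nonempty (G.induce (S : Set V) ≃g SimpleGraph.cycleGraph k)}.ncard : ℝ)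
        ≤ ((Fintype.card V : ℝ) / (k : ℝ)) ^ k) := by
  intro k hbig V _ G hG
  have hk : 5 ≤ k := by omega
  have : NeZero k := ⟨by omega⟩
  refine main_of_code hbig hG ?_
  intro a b
  classical
  have hcard : ({a, b} : Finset V).card ≤ 2 := Finset.card_le_two
  refine round_code_of hk G a b ?_ 20000 {a, b} (by simp) (by simp) (by omega)
  intro Q ha hb hQ
  exact pair_code hk G a b Q ha hb hQ

end Pool.Agent.Results.MP_131fce_co.LargeK
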